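import Mathlib

/-!
# The unit group of the universal CP monoid is generated by the symmetric groups (MP_6189ff_al)
-/

set_option autoImplicit false

namespace Pool.Agent.Results.MP_6189ff_al.GeneratedBySymmetricGroups

open Finset

/-- A `d`-CP structure on the monoid `M`: elements `pt i` (`i < d`) of `M` and a bijection
`map : M ^ d → M` with `pt i * map m = m i`. -/
structure CP (M : Type) [Monoid M] (d : ℕ) where
  /-- the bijection `M ^ d → M` -/
  map : (Fin d → M) → M
  /-- the distinguished elements -/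
  pt : Fin d → M
  bij : Function.Bijective map
  spec : ∀ (m : Fin d → M) (i : Fin d), pt i * map m = m i

/-- `f` is a homomorphism of CP monoids from `(M, S)` to `(N, T)`. -/
structure IsHom {M N : Type} [Monoid M] [Monoid N] (S : CP M 2) (T : CP N 2) (f : M →* N) :
    Prop where
  pt : ∀ i, f (S.pt i) = T.pt i
  map : ∀ m : Fin 2 → M, f (S.map m) = T.map fun i => f (m i)

/-- The CP monoid `(M, S)` is an initial object of the category of CP monoids. -/
def IsInitialCP {M : Type} [Monoid M] (S : CP M 2) : Prop :=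
  ∀ (N : Type) [Monoid N] (T : CP N 2), ∃! f : M →* N, IsHom S T f

section

variable {M : Type} [Monoid M]

/-- The `1`-CP structure `(id, 1)`. -/
def CP.one : CP M 1 where
  map m := m 0
  pt _ := 1
  bij := ⟨fun a b h => funext fun i => by rw [Subsingleton.elim i 0]; exact h,
    fun x => ⟨fun _ => x, rfl⟩⟩
  spec m i := by rw [one_mul, Subsingleton.elim i 0]

theorem CP.map_of {d : ℕ} (S : CP M d) (x : M) : (S.map fun i => S.pt i * x) = x := by
  obtain ⟨m, rfl⟩ := S.bij.2 x
  congr 1
  funext i
  exact S.spec m i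

theorem CP.ext_of {d : ℕ} (S : CP M d) {x y : M} (h : ∀ i, S.pt i * x = S.pt i * y) : x = y := by
  rw [← S.map_of x, ← S.map_of y]
  congr 1
  funext i
  exact h i

/-- The products `(T i).pt j * S.pt i` (the distinguished elements of a combination). -/
def CP.pts {s : ℕ} {n : Fin s → ℕ} (S : CP M s) (T : ∀ i, CP M (n i)) (p : Σ i, Fin (n i)) : M :=
  (T p.1).pt p.2 * S.pt p.1

/-- The combination of an `s`-CP structure `S` with `n i`-CP structures `T i` (`i < s`). The
distinguished elements are the products `(T i).pt j * S.pt i`, in lexicographic order. -/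
def CP.comb {s : ℕ} {n : Fin s → ℕ} (S : CP M s) (T : ∀ i, CP M (n i)) :
    CP M (∑ i, n i) where
  map m := S.map fun i => (T i).map fun j => m (finSigmaFinEquiv ⟨i, j⟩)
  pt k := S.pts T (finSigmaFinEquiv.symm k)
  bij := by
    constructor
    · intro a b h
      have h1 := S.bij.1 h
      funext k
      obtain ⟨⟨i, j⟩, rfl⟩ := finSigmaFinEquiv.surjective k
      have h2 := (T i).bij.1 (congrFun h1 i)
      exact congrFun h2 j
    · intro x
      refine ⟨fun k => S.pts T (finSigmaFinEquiv.symm k) * x, ?_⟩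
      simp only [Equiv.symm_apply_apply]
      simp only [CP.pts, mul_assoc, CP.map_of]
  spec m k := by
    obtain ⟨⟨i, j⟩, rfl⟩ := finSigmaFinEquiv.surjective k
    rw [Equiv.symm_apply_apply]
    simp only [CP.pts, mul_assoc, S.spec, (T i).spec]

/-- The set `𝕊(M)` of all `d`-CP structures on `M` obtained from the given `2`-CP structure `S₂`
and from `(id, 1)` by finitely many applications of the combination. -/
inductive InS (S₂ : CP M 2) : ∀ d : ℕ, CP M d → Prop
  | base : InS S₂ 2 S₂
  | one : InS S₂ 1 CP.one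
  | comb {s : ℕ} {n : Fin s → ℕ} (S : CP M s) (T : ∀ i, CP M (n i)) :
      InS S₂ s S → (∀ i, InS S₂ (n i) (T i)) → InS S₂ (∑ i, n i) (S.comb T)

/-- The element `ψ(σ) = Φ(τ_{σ⁻¹(1)}, …, τ_{σ⁻¹(d)})` for the `d`-CP structure `(Φ, τ)`. -/
def CP.psi {d : ℕ} (T : CP M d) (σ : Equiv.Perm (Fin d)) : M := T.map fun i => T.pt (σ⁻¹ i)

/-- The set of all units in the union of the images `ψ(S_d)`, over `d ≥ 2` and all `d`-CP
structures in `𝕊(M)`. -/
def symUnits (S₂ : CP M 2) : Set Mˣ :=
  {u | ∃ d : ℕ, 2 ≤ d ∧ ∃ T : CP M d, InS S₂ d T ∧ ∃ σ : Equiv.Perm (Fin d), (u : M) = T.psi σ}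

theorem CP.pt_psi {d : ℕ} (T : CP M d) (σ : Equiv.Perm (Fin d)) (i : Fin d) :
    T.pt i * T.psi σ = T.pt (σ⁻¹ i) := T.spec _ i

theorem CP.psi_mul_inv {d : ℕ} (T : CP M d) (σ : Equiv.Perm (Fin d)) :
    T.psi σ * T.psi σ⁻¹ = 1 := by
  refine T.ext_of fun i => ?_
  rw [← mul_assoc, T.pt_psi, T.pt_psi, mul_one, inv_inv]
  congr 1
  exact σ.apply_symm_apply i

/-- `ψ(σ)` as a unit -/
def CP.psiU {d : ℕ} (T : CP M d) (σ : Equiv.Perm (Fin d)) : Mˣ where
  val := T.psi σ
  inv := T.psi σ⁻¹
  val_inv := T.psi_mul_inv σ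
  inv_val := by
    have := T.psi_mul_inv σ⁻¹
    rwa [inv_inv] at this

/-! ### addresses and trees -/

/-- index of a digit -/
def ix (b : Bool) : Fin 2 := if b then 1 else 0

/-- The element of `M` belonging to the address `a`. -/
def wd (S : CP M 2) : List Bool → M
  | [] => 1
  | b :: a => wd S a * S.pt (ix b)

theorem wd_snoc (S : CP M 2) (a : List Bool) (b : Bool) :
    wd S (a ++ [b]) = S.pt (ix b) * wd S a := by
  induction a with
  | nil => simp [wd]
  | cons c a ih => rw [List.cons_append, wd, ih, wd, mul_assoc]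

/-- Binary trees whose leaves carry addresses. -/
inductive LT : Type
  | leaf : List Bool → LT
  | node : LT → LT → LT

/-- the element of a labelled tree -/
def ev (S : CP M 2) : LT → M
  | LT.leaf a => wd S a
  | LT.node l r => S.map ![ev S l, ev S r]

theorem pt_ev (S : CP M 2) (l r : LT) (b : Bool) :
    S.pt (ix b) * ev S (LT.node l r) = ev S (if b then r else l) := by
  rw [ev, S.spec]
  cases b <;> rfl

theorem map_mul_right (S : CP M 2) (a b c : M) : S.map ![a, b] * c = S.map ![a * c, b * c] := by
  refine S.ext_of fun i => ?_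
  rw [← mul_assoc, S.spec, S.spec]
  fin_cases i <;> rfl

theorem mul_ev_aux (S : CP M 2) (a : List Bool) (T : LT) : ∃ T', ev S T' = wd S a * ev S T := by
  induction a generalizing T with
  | nil => exact ⟨T, by rw [wd, one_mul]⟩
  | cons b a ih =>
    cases T with
    | leaf c =>
      obtain ⟨T', hT'⟩ := ih (LT.leaf (c ++ [b]))
      refine ⟨T', ?_⟩
      rw [hT', ev, wd_snoc, wd, ev, mul_assoc]
    | node l r =>
      obtain ⟨T', hT'⟩ := ih (if b then r else l)
      refine ⟨T', ?_⟩
      rw [hT', wd, mul_assoc, pt_ev]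

theorem mul_ev (S : CP M 2) (T T₂ : LT) : ∃ T', ev S T' = ev S T * ev S T₂ := by
  induction T with
  | leaf a => exact mul_ev_aux S a T₂
  | node l r ihl ihr =>
    obtain ⟨L, hL⟩ := ihl
    obtain ⟨R, hR⟩ := ihr
    refine ⟨LT.node L R, ?_⟩
    rw [ev, ev, map_mul_right, hL, hR]

/-- The submonoid of all elements of labelled trees. -/
def evSub (S : CP M 2) : Submonoid M where
  carrier := {x | ∃ T, ev S T = x}
  one_mem' := ⟨LT.leaf [], rfl⟩
  mul_mem' := by
    rintro _ _ ⟨T, rfl⟩ ⟨T₂, rfl⟩
    exact mul_ev S T T₂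

theorem ix_surj (i : Fin 2) : ∃ b, ix b = i := by
  fin_cases i
  · exact ⟨false, rfl⟩
  · exact ⟨true, rfl⟩

theorem pt_mem (S : CP M 2) (i : Fin 2) : S.pt i ∈ evSub S := by
  obtain ⟨b, rfl⟩ := ix_surj i
  exact ⟨LT.leaf [b], by rw [ev, wd, wd, one_mul]⟩

theorem map_mem (S : CP M 2) (m : Fin 2 → M) (h : ∀ i, m i ∈ evSub S) : S.map m ∈ evSub S := by
  obtain ⟨l, hl⟩ := h 0
  obtain ⟨r, hr⟩ := h 1
  refine ⟨LT.node l r, ?_⟩
  rw [ev, hl, hr]
  congr 1
  funext i
  fin_cases i <;> rfl

/-- The CP structure on the submonoid of all elements of labelled trees. -/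
def evCP (S : CP M 2) : CP (evSub S) 2 where
  map m := ⟨S.map fun i => (m i : M), map_mem S _ fun i => (m i).2⟩
  pt i := ⟨S.pt i, pt_mem S i⟩
  bij := by
    constructor
    · intro a b h
      have h1 : (S.map fun i => (a i : M)) = S.map fun i => (b i : M) := congrArg Subtype.val h
      have h2 := S.bij.1 h1
      funext i
      exact Subtype.ext (congrFun h2 i)
    · intro x
      refine ⟨fun i => ⟨S.pt i * x, (evSub S).mul_mem (pt_mem S i) x.2⟩, ?_⟩
      exact Subtype.ext (S.map_of (x : M))
  spec m i := Subtype.ext (S.spec _ i)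

theorem exists_ev {S : CP M 2} (hS : IsInitialCP S) (x : M) : ∃ T, ev S T = x := by
  obtain ⟨f, hf, -⟩ := hS (evSub S) (evCP S)
  obtain ⟨g, -, hg⟩ := hS M S
  have h1 : (evSub S).subtype.comp f = g := by
    refine hg _ ⟨fun i => ?_, fun m => ?_⟩
    · show ((f (S.pt i) : evSub S) : M) = S.pt i
      rw [hf.pt]
      rfl
    · show ((f (S.map m) : evSub S) : M) = _
      rw [hf.map]
      rfl
  have h2 : MonoidHom.id M = g := hg _ ⟨fun i => rfl, fun m => rfl⟩
  have h3 : ((f x : evSub S) : M) = x := by
    have := DFunLike.congr_fun (h1.trans h2.symm) x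
    exact this
  have := (f x).2
  rw [h3] at this
  exact this

/-! ### the action on Cantor space -/

/-- the Cantor space -/
abbrev X : Type := ℕ → Bool

/-- prepend a digit -/
def cons (b : Bool) (x : X) : X := fun n => Nat.casesOn n b x

/-- drop the first digit -/
def tl (x : X) : X := fun n => x (n + 1)

theorem cons_tl (x : X) : cons (x 0) (tl x) = x := by
  funext n
  cases n <;> rfl

theorem tl_cons (b : Bool) (x : X) : tl (cons b x) = x := rfl

theorem cons_zero (b : Bool) (x : X) : cons b x 0 = b := rfl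

/-- prepend an address -/
def app : List Bool → X → X
  | [], x => x
  | b :: a, x => cons b (app a x)

theorem ix_inj {b c : Bool} (h : ix b = ix c) : b = c := by
  cases b <;> cases c <;> simp_all [ix]

/-- the inverse of `ix` -/
def dg (i : Fin 2) : Bool := if i = 0 then false else true

theorem ix_dg (i : Fin 2) : ix (dg i) = i := by
  fin_cases i <;> rfl

theorem dg_ix (b : Bool) : dg (ix b) = b := by
  cases b <;> rfl

/-- The CP monoid of all maps of the Cantor space. -/
def cantorCP : CP (Function.End X)ᵐᵒᵖ 2 where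
  map m := MulOpposite.op fun x => (m (ix (x 0))).unop (tl x)
  pt i := MulOpposite.op (cons (dg i))
  bij := by
    constructor
    · intro a b h
      have h1 := congrArg MulOpposite.unop h
      funext i
      apply MulOpposite.unop_injective
      funext x
      have h2 : (a (ix (cons (dg i) x 0))).unop (tl (cons (dg i) x)) =
          (b (ix (cons (dg i) x 0))).unop (tl (cons (dg i) x)) := congrFun h1 (cons (dg i) x)
      rwa [cons_zero, tl_cons, ix_dg] at h2
    · intro x
      refine ⟨fun i => MulOpposite.op fun y => x.unop (cons (dg i) y), ?_⟩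
      apply MulOpposite.unop_injective
      funext y
      show x.unop (cons (dg (ix (y 0))) (tl y)) = x.unop y
      rw [dg_ix, cons_tl]
  spec m i := by
    apply MulOpposite.unop_injective
    funext x
    show (m (ix (cons (dg i) x 0))).unop (tl (cons (dg i) x)) = (m i).unop x
    rw [cons_zero, tl_cons, ix_dg]

/-- the map of a labelled tree -/
def act : LT → X → X
  | LT.leaf a, x => app a x
  | LT.node l r, x => if x 0 then act r (tl x) else act l (tl x)

theorem hom_wd {S : CP M 2} {f : M →* (Function.End X)ᵐᵒᵖ} (hf : IsHom S cantorCP f)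
    (a : List Bool) (x : X) : (f (wd S a)).unop x = app a x := by
  induction a with
  | nil => rw [wd, map_one]; rfl
  | cons b a ih =>
    rw [wd, map_mul, hf.pt, MulOpposite.unop_mul]
    show cons (dg (ix b)) ((f (wd S a)).unop x) = _
    rw [ih, dg_ix]
    rfl

theorem hom_ev {S : CP M 2} {f : M →* (Function.End X)ᵐᵒᵖ} (hf : IsHom S cantorCP f)
    (T : LT) (x : X) : (f (ev S T)).unop x = act T x := by
  induction T generalizing x with
  | leaf a => exact hom_wd hf a x
  | node l r ihl ihr =>
    rw [ev, hf.map, act, ← ihl, ← ihr]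
    show (f (![ev S l, ev S r] (ix (x 0)))).unop (tl x) = _
    cases h : x 0 <;> rfl

theorem act_bij {S : CP M 2} (hS : IsInitialCP S) {T : LT} (hT : IsUnit (ev S T)) :
    Function.Bijective (act T) := by
  obtain ⟨f, hf, -⟩ := hS _ cantorCP
  have h1 : IsUnit (f (ev S T)) := hT.map f
  obtain ⟨u, hu⟩ := h1
  have h2 : (f (ev S T)).unop = act T := funext fun x => hom_ev hf T x
  rw [← h2, ← hu]
  have e1 : ∀ x, (u⁻¹ : (Function.End X)ᵐᵒᵖˣ).val.unop (u.val.unop x) = x := by
    intro x
    have : (u.val * (u⁻¹ : (Function.End X)ᵐᵒᵖˣ).val).unop x = x := by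
      rw [Units.mul_inv]
      rfl
    exact this
  have e2 : ∀ x, u.val.unop ((u⁻¹ : (Function.End X)ᵐᵒᵖˣ).val.unop x) = x := by
    intro x
    have : ((u⁻¹ : (Function.End X)ᵐᵒᵖˣ).val * u.val).unop x = x := by
      rw [Units.inv_mul]
      rfl
    exact this
  exact ⟨fun x y h => by rw [← e1 x, ← e1 y, h], fun y => ⟨_, e2 y⟩⟩

/-- `a` is a prefix of the infinite word `y` -/
def Pre (a : List Bool) (y : X) : Prop := ∃ x, app a x = y

theorem pre_nil (y : X) : Pre [] y := ⟨y, rfl⟩

theorem pre_cons {b : Bool} {a : List Bool} {y : X} : Pre (b :: a) y ↔ y 0 = b ∧ Pre a (tl y) := by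
  constructor
  · rintro ⟨x, rfl⟩
    exact ⟨rfl, x, rfl⟩
  · rintro ⟨h, x, hx⟩
    refine ⟨x, ?_⟩
    rw [app, hx, ← h, cons_tl]

theorem pre_cons_cons {b c : Bool} {a : List Bool} {y : X} :
    Pre (b :: a) (cons c y) ↔ c = b ∧ Pre a y := by
  rw [pre_cons]
  rfl

/-- the labels of a labelled tree -/
def lab : LT → List (List Bool)
  | LT.leaf a => [a]
  | LT.node l r => lab l ++ lab r

theorem exists_pre (T : LT) (x : X) : ∃ a ∈ lab T, Pre a (act T x) := by
  induction T generalizing x with
  | leaf a => exact ⟨a, by simp [lab], x, rfl⟩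
  | node l r ihl ihr =>
    rw [act]
    cases h : x 0
    · obtain ⟨a, ha, h1⟩ := ihl (tl x)
      exact ⟨a, by simp [lab, ha], by simpa using h1⟩
    · obtain ⟨a, ha, h1⟩ := ihr (tl x)
      exact ⟨a, by simp [lab, ha], by simpa using h1⟩

theorem mem_range (T : LT) {a : List Bool} (ha : a ∈ lab T) {y : X} (h : Pre a y) :
    ∃ x, act T x = y := by
  induction T with
  | leaf c =>
    rw [lab, List.mem_singleton] at ha
    subst ha
    exact h
  | node l r ihl ihr =>
    rw [lab, List.mem_append] at ha
    rcases ha with ha | ha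
    · obtain ⟨x, hx⟩ := ihl ha
      exact ⟨cons false x, hx⟩
    · obtain ⟨x, hx⟩ := ihr ha
      exact ⟨cons true x, hx⟩

theorem pairwise_lab (T : LT) (hT : Function.Injective (act T)) :
    (lab T).Pairwise fun a b => ∀ y, Pre a y → Pre b y → False := by
  induction T with
  | leaf a => exact List.pairwise_singleton _ _
  | node l r ihl ihr =>
    rw [lab, List.pairwise_append]
    refine ⟨ihl ?_, ihr ?_, ?_⟩
    · intro x y h
      have := @hT (cons false x) (cons false y) h
      rw [← tl_cons false x, this, tl_cons]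
    · intro x y h
      have := @hT (cons true x) (cons true y) h
      rw [← tl_cons true x, this, tl_cons]
    · intro a ha b hb y h1 h2
      obtain ⟨x, hx⟩ := mem_range l ha h1
      obtain ⟨z, hz⟩ := mem_range r hb h2
      have h3 : act (LT.node l r) (cons false x) = act (LT.node l r) (cons true z) := hx.trans hz.symm
      have h4 := congrFun (hT h3) 0
      simp [cons] at h4

theorem pre_app (a : List Bool) : ∃ y, Pre a y := ⟨app a fun _ => false, _, rfl⟩

/-- the set `F` of addresses is a complete prefix code -/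
def Code (F : Set (List Bool)) : Prop := ∀ y : X, ∃! a, a ∈ F ∧ Pre a y

theorem code_lab {T : LT} (hT : Function.Bijective (act T)) : Code {a | a ∈ lab T} := by
  intro y
  obtain ⟨x, rfl⟩ := hT.2 y
  obtain ⟨a, ha, h⟩ := exists_pre T x
  refine ⟨a, ⟨ha, h⟩, ?_⟩
  rintro b ⟨hb, h'⟩
  by_contra hne
  have hp := pairwise_lab T hT.1
  have hsymm : Std.Symm fun a b : List Bool => ∀ y, Pre a y → Pre b y → False :=
    ⟨fun _ _ h y h1 h2 => h y h2 h1⟩
  exact hp.forall ha hb (fun h => hne h.symm) _ h h'

theorem code_nil {F : Set (List Bool)} (hF : Code F) (h : [] ∈ F) {a : List Bool} (ha : a ∈ F) :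
    a = [] := by
  obtain ⟨y, hy⟩ := pre_app a
  exact (hF y).unique ⟨ha, hy⟩ ⟨h, pre_nil y⟩

/-- A complete prefix code gives a structure in `𝕊(M)`. -/
theorem exists_struct (S : CP M 2) (N : ℕ) : ∀ F : Set (List Bool), Code F →
    (∀ a ∈ F, a.length ≤ N) →
    (∃ (d : ℕ) (R : CP M d) (f : Fin d → List Bool), InS S d R ∧ Function.Injective f ∧
      (∀ i, R.pt i = wd S (f i)) ∧ Set.range f = F) ∧
    ([] ∈ F ∨ ∃ δ, δ ++ [false] ∈ F ∧ δ ++ [true] ∈ F) := by
  induction N with
  | zero =>
    intro F hF hN
    have h0 : [] ∈ F := by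
      obtain ⟨a, ⟨ha, -⟩, -⟩ := hF fun _ => false
      have := List.length_eq_zero_iff.1 (Nat.le_zero.1 (hN a ha))
      rwa [this] at ha
    refine ⟨⟨1, CP.one, fun _ => [], InS.one, fun i j _ => Subsingleton.elim _ _, fun i => rfl, ?_⟩,
      Or.inl h0⟩
    ext a
    constructor
    · rintro ⟨i, rfl⟩
      exact h0
    · intro ha
      exact ⟨0, (code_nil hF h0 ha).symm⟩
  | succ N ih =>
    intro F hF hN
    by_cases h0 : [] ∈ F
    · refine ⟨⟨1, CP.one, fun _ => [], InS.one, fun i j _ => Subsingleton.elim _ _, fun i => rfl, ?_⟩,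
        Or.inl h0⟩
      ext a
      constructor
      · rintro ⟨i, rfl⟩
        exact h0
      · intro ha
        exact ⟨0, (code_nil hF h0 ha).symm⟩
    · have hcode : ∀ b : Bool, Code {a | b :: a ∈ F} := by
        intro b y
        obtain ⟨a, ⟨ha, hp⟩, huniq⟩ := hF (cons b y)
        cases a with
        | nil => exact absurd ha h0
        | cons c a =>
          rw [pre_cons_cons] at hp
          obtain ⟨rfl, hp⟩ := hp
          refine ⟨a, ⟨ha, hp⟩, ?_⟩
          rintro a' ⟨ha', hp'⟩
          have := huniq (b :: a') ⟨ha', pre_cons_cons.2 ⟨rfl, hp'⟩⟩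
          exact (List.cons.inj this).2
      have hlen : ∀ b : Bool, ∀ a ∈ {a | b :: a ∈ F}, a.length ≤ N := by
        intro b a ha
        have := hN _ ha
        rw [List.length_cons] at this
        omega
      have key := fun i : Fin 2 => ih _ (hcode (dg i)) (hlen (dg i))
      choose hd hsib using key
      choose n R f hR hf hpt hrange using hd
      let fs : (Σ i, Fin (n i)) → List Bool := fun p => dg p.1 :: f p.1 p.2
      have hfs : ∀ i j, fs ⟨i, j⟩ = dg i :: f i j := fun _ _ => rfl
      refine ⟨⟨∑ i, n i, S.comb R, fun k => fs (finSigmaFinEquiv.symm k), InS.comb S R InS.base hR,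
        ?_, ?_, ?_⟩, ?_⟩
      · intro k k' h
        obtain ⟨⟨i, j⟩, rfl⟩ := finSigmaFinEquiv.surjective k
        obtain ⟨⟨i', j'⟩, rfl⟩ := finSigmaFinEquiv.surjective k'
        simp only [Equiv.symm_apply_apply, hfs, List.cons.injEq] at h
        obtain ⟨h1, h2⟩ := h
        have h3 : i = i' := by rw [← ix_dg i, h1, ix_dg]
        subst h3
        rw [hf i h2]
      · intro k
        obtain ⟨⟨i, j⟩, rfl⟩ := finSigmaFinEquiv.surjective k
        show S.pts R (finSigmaFinEquiv.symm (finSigmaFinEquiv ⟨i, j⟩)) = _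
        simp only [Equiv.symm_apply_apply, hfs]
        simp only [CP.pts, wd, hpt, ix_dg]
      · ext a
        constructor
        · rintro ⟨k, rfl⟩
          obtain ⟨⟨i, j⟩, rfl⟩ := finSigmaFinEquiv.surjective k
          simp only [Equiv.symm_apply_apply, hfs]
          have : f i j ∈ Set.range (f i) := ⟨j, rfl⟩
          rw [hrange i] at this
          exact this
        · intro ha
          cases a with
          | nil => exact absurd ha h0
          | cons b a =>
            have h1 : a ∈ Set.range (f (ix b)) := by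
              rw [hrange, dg_ix]
              exact ha
            obtain ⟨j, hj⟩ := h1
            refine ⟨finSigmaFinEquiv ⟨ix b, j⟩, ?_⟩
            simp only [Equiv.symm_apply_apply, hfs, dg_ix, hj]
      · right
        rcases hsib 0 with h1 | ⟨δ, h1, h2⟩
        · rcases hsib 1 with h2 | ⟨δ, h2, h3⟩
          · exact ⟨[], h1, h2⟩
          · exact ⟨true :: δ, h2, h3⟩
        · exact ⟨false :: δ, h1, h2⟩

/-! ### carets -/

/-- `T` contains a caret with labels `a`, `b` -/
inductive Caret : LT → List Bool → List Bool → Prop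
  | base (a b : List Bool) : Caret (LT.node (LT.leaf a) (LT.leaf b)) a b
  | left {l : LT} (r : LT) {a b : List Bool} : Caret l a b → Caret (LT.node l r) a b
  | right (l : LT) {r : LT} {a b : List Bool} : Caret r a b → Caret (LT.node l r) a b

theorem exists_caret (T : LT) : (∃ a, T = LT.leaf a) ∨ ∃ a b, Caret T a b := by
  induction T with
  | leaf a => exact Or.inl ⟨a, rfl⟩
  | node l r ihl ihr =>
    right
    rcases ihl with ⟨a, rfl⟩ | ⟨a, b, h⟩
    · rcases ihr with ⟨b, rfl⟩ | ⟨b, c, h⟩
      · exact ⟨a, b, Caret.base a b⟩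
      · exact ⟨b, c, h.right _⟩
    · exact ⟨a, b, h.left _⟩

theorem Caret.sublist {T : LT} {a b : List Bool} (h : Caret T a b) : [a, b].Sublist (lab T) := by
  induction h with
  | base a b => exact List.Sublist.refl _
  | left r _ ih => exact ih.trans (List.sublist_append_left _ _)
  | right l _ ih => exact ih.trans (List.sublist_append_right _ _)

/-- change the labels -/
def relab (g : List Bool → List Bool) : LT → LT
  | LT.leaf a => LT.leaf (g a)
  | LT.node l r => LT.node (relab g l) (relab g r)

theorem Caret.relab {T : LT} {a b : List Bool} (h : Caret T a b) (g : List Bool → List Bool) :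
    Caret (relab g T) (g a) (g b) := by
  induction h with
  | base a b => exact Caret.base _ _
  | left r _ ih => exact ih.left _
  | right l _ ih => exact ih.right _

/-- the number of leaves -/
def size : LT → ℕ
  | LT.leaf _ => 1
  | LT.node l r => size l + size r

theorem size_relab (g : List Bool → List Bool) (T : LT) : size (relab g T) = size T := by
  induction T with
  | leaf a => rfl
  | node l r ihl ihr => rw [relab, size, size, ihl, ihr]

theorem ev_relab (S : CP M 2) (g : List Bool → List Bool) (T : LT) (c : M)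
    (h : ∀ a ∈ lab T, wd S a * c = wd S (g a)) : ev S (relab g T) = ev S T * c := by
  induction T with
  | leaf a => exact (h a (by simp [lab])).symm
  | node l r ihl ihr =>
    rw [relab, ev, ev, map_mul_right, ihl fun a ha => h a (by simp [lab, ha]),
      ihr fun a ha => h a (by simp [lab, ha])]

theorem Caret.reduce (S : CP M 2) {T : LT} {a b : List Bool} (h : Caret T a b) {δ : List Bool}
    (ha : a = δ ++ [false]) (hb : b = δ ++ [true]) :
    ∃ T', ev S T' = ev S T ∧ size T' < size T := by
  induction h with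
  | base a b =>
    refine ⟨LT.leaf δ, ?_, by simp [size]⟩
    rw [ev, ev, ev, ev, ha, hb, wd_snoc, wd_snoc]
    conv_lhs => rw [← S.map_of (wd S δ)]
    congr 1
    funext i
    fin_cases i <;> rfl
  | left r _ ih =>
    obtain ⟨T', h1, h2⟩ := ih ha hb
    exact ⟨LT.node T' r, by rw [ev, ev, h1], by rw [size, size]; omega⟩
  | right l _ ih =>
    obtain ⟨T', h1, h2⟩ := ih ha hb
    exact ⟨LT.node l T', by rw [ev, ev, h1], by rw [size, size]; omega⟩

theorem exists_perm {α : Type} [DecidableEq α] {a b c d : α} (hab : a ≠ b) (hcd : c ≠ d) :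
    ∃ ρ : Equiv.Perm α, ρ a = c ∧ ρ b = d := by
  refine ⟨Equiv.swap (Equiv.swap a c b) d * Equiv.swap a c, ?_, ?_⟩
  · rw [Equiv.Perm.mul_apply, Equiv.swap_apply_left, Equiv.swap_apply_of_ne_of_ne _ hcd]
    intro h
    have : Equiv.swap a c a = Equiv.swap a c b := by rw [Equiv.swap_apply_left]; exact h
    exact hab ((Equiv.swap a c).injective this)
  · rw [Equiv.Perm.mul_apply, Equiv.swap_apply_left]

theorem app_surj {a : List Bool} (h : Function.Surjective (app a)) : a = [] := by
  cases a with
  | nil => rfl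
  | cons b a =>
    obtain ⟨x, hx⟩ := h (cons (!b) fun _ => false)
    have h1 := congrFun hx 0
    cases b <;> simp [app, cons] at h1

theorem mem_closure {S : CP M 2} (hS : IsInitialCP S) (n : ℕ) : ∀ (T : LT) (u : Mˣ),
    size T ≤ n → (u : M) = ev S T → u ∈ Subgroup.closure (symUnits S) := by
  induction n with
  | zero =>
    intro T u hT
    have : 0 < size T := by
      clear hT
      induction T with
      | leaf a => exact Nat.one_pos
      | node l r ihl _ => rw [size]; omega
    omega
  | succ n ih =>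
    intro T u hT hu
    have hbij := act_bij hS (T := T) ⟨u, hu⟩
    rcases exists_caret T with ⟨a, rfl⟩ | ⟨a, b, hc⟩
    · have h1 : a = [] := app_surj hbij.2
      subst h1
      have : u = 1 := Units.ext hu
      rw [this]
      exact Subgroup.one_mem _
    · have hcode := code_lab hbij
      have hsub := hc.sublist
      have hab : a ≠ b := by
        rintro rfl
        have h1 := (pairwise_lab T hbij.1).sublist hsub
        rw [List.pairwise_pair] at h1
        obtain ⟨y, hy⟩ := pre_app a
        exact h1 y hy hy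
      have ha : a ∈ lab T := hsub.subset (by simp)
      have hb : b ∈ lab T := hsub.subset (by simp)
      obtain ⟨N, hN⟩ : ∃ N, ∀ a ∈ {a | a ∈ lab T}, a.length ≤ N := by
        refine ⟨((lab T).map List.length).sum, fun a ha => ?_⟩
        exact List.le_sum_of_mem (List.mem_map_of_mem ha)
      obtain ⟨⟨d, R, f, hR, hf, hpt, hrange⟩, hsib⟩ := exists_struct S N _ hcode hN
      rcases hsib with h0 | ⟨δ, h0, h1⟩
      · exact absurd ((code_nil hcode h0 ha).trans (code_nil hcode h0 hb).symm) hab
      · rw [← hrange] at h0 h1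
        obtain ⟨i0, hi0⟩ := h0
        obtain ⟨i1, hi1⟩ := h1
        have ha' : a ∈ {a | a ∈ lab T} := ha
        have hb' : b ∈ {a | a ∈ lab T} := hb
        rw [← hrange] at ha' hb'
        obtain ⟨ia, hia⟩ := ha'
        obtain ⟨ib, hib⟩ := hb'
        have hne : ia ≠ ib := by
          rintro rfl
          exact hab (hia.symm.trans hib)
        have hne' : i0 ≠ i1 := by
          rintro rfl
          have := hi0.symm.trans hi1
          simp at this
        obtain ⟨ρ, hρa, hρb⟩ := exists_perm hne hne'
        have hd : 2 ≤ d := by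
          by_contra hlt
          push Not at hlt
          apply hne
          ext
          omega
        have hmem : R.psiU ρ⁻¹ ∈ symUnits S := ⟨d, hd, R, hR, ρ⁻¹, rfl⟩
        let g : List Bool → List Bool := Function.extend f (fun i => f (ρ i)) id
        have hg : ∀ i, g (f i) = f (ρ i) := fun i => hf.extend_apply _ _ i
        have hev : ev S (relab g T) = ev S T * R.psi ρ⁻¹ := by
          apply ev_relab
          intro c hc
          have hc' : c ∈ {a | a ∈ lab T} := hc
          rw [← hrange] at hc'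
          obtain ⟨i, rfl⟩ := hc'
          rw [hg, ← hpt, ← hpt, CP.pt_psi, inv_inv]
        have hcar := hc.relab g
        have e1 : g a = δ ++ [false] := by rw [← hia, hg, hρa, hi0]
        have e2 : g b = δ ++ [true] := by rw [← hib, hg, hρb, hi1]
        obtain ⟨T', h1, h2⟩ := hcar.reduce S e1 e2
        rw [size_relab] at h2
        have h3 : u * R.psiU ρ⁻¹ ∈ Subgroup.closure (symUnits S) := by
          apply ih T' _ (by omega)
          rw [h1, hev, ← hu]
          rfl
        have h4 : u = u * R.psiU ρ⁻¹ * (R.psiU ρ⁻¹)⁻¹ := by group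
        rw [h4]
        exact Subgroup.mul_mem _ h3 (Subgroup.inv_mem _ (Subgroup.subset_closure hmem))

end

/-! ### existence of the universal CP monoid -/

/-- Terms in the language of CP monoids. -/
inductive Tm : Type
  | one : Tm
  | pi : Fin 2 → Tm
  | mul : Tm → Tm → Tm
  | sg : Tm → Tm → Tm

/-- The congruence defining the universal CP monoid. -/
inductive Rel : Tm → Tm → Prop
  | refl (a) : Rel a a
  | symm {a b} : Rel a b → Rel b a
  | trans {a b c} : Rel a b → Rel b c → Rel a c
  | mul {a b c d} : Rel a b → Rel c d → Rel (Tm.mul a c) (Tm.mul b d)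
  | sg {a b c d} : Rel a b → Rel c d → Rel (Tm.sg a c) (Tm.sg b d)
  | assoc (a b c) : Rel (Tm.mul (Tm.mul a b) c) (Tm.mul a (Tm.mul b c))
  | one_mul (a) : Rel (Tm.mul Tm.one a) a
  | mul_one (a) : Rel (Tm.mul a Tm.one) a
  | pi_zero (a b) : Rel (Tm.mul (Tm.pi 0) (Tm.sg a b)) a
  | pi_one (a b) : Rel (Tm.mul (Tm.pi 1) (Tm.sg a b)) b
  | eta (a) : Rel (Tm.sg (Tm.mul (Tm.pi 0) a) (Tm.mul (Tm.pi 1) a)) a

/-- The setoid of `Rel`. -/
def stm : Setoid Tm := ⟨Rel, ⟨Rel.refl, Rel.symm, Rel.trans⟩⟩

/-- The universal CP monoid. -/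
def U : Type := Quotient stm

/-- The class of a term. -/
def cl (a : Tm) : U := Quotient.mk stm a

theorem cl_eq {a b : Tm} (h : Rel a b) : cl a = cl b := Quotient.sound (s := stm) h

theorem cl_rel {a b : Tm} (h : cl a = cl b) : Rel a b := Quotient.exact (s := stm) h

/-- multiplication on `U` -/
def U.mul (x y : U) : U :=
  Quotient.liftOn₂ (s₁ := stm) (s₂ := stm) x y (fun a b => cl (Tm.mul a b))
    fun _ _ _ _ h1 h2 => cl_eq (Rel.mul h1 h2)

/-- the map `Σ` on `U` -/
def U.sg (x y : U) : U :=
  Quotient.liftOn₂ (s₁ := stm) (s₂ := stm) x y (fun a b => cl (Tm.sg a b))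
    fun _ _ _ _ h1 h2 => cl_eq (Rel.sg h1 h2)

theorem cl_surj (x : U) : ∃ a, cl a = x := Quotient.exists_rep (s := stm) x

instance : Monoid U where
  mul := U.mul
  one := cl Tm.one
  mul_assoc x y z := by
    obtain ⟨a, rfl⟩ := cl_surj x
    obtain ⟨b, rfl⟩ := cl_surj y
    obtain ⟨c, rfl⟩ := cl_surj z
    exact cl_eq (Rel.assoc a b c)
  one_mul x := by
    obtain ⟨a, rfl⟩ := cl_surj x
    exact cl_eq (Rel.one_mul a)
  mul_one x := by
    obtain ⟨a, rfl⟩ := cl_surj x
    exact cl_eq (Rel.mul_one a)

/-- the universal CP monoid -/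
def univCP : CP U 2 where
  map m := U.sg (m 0) (m 1)
  pt i := cl (Tm.pi i)
  bij := by
    have h0 : ∀ x y : U, cl (Tm.pi 0) * U.sg x y = x := by
      intro x y
      obtain ⟨a, rfl⟩ := cl_surj x
      obtain ⟨b, rfl⟩ := cl_surj y
      exact cl_eq (Rel.pi_zero a b)
    have h1 : ∀ x y : U, cl (Tm.pi 1) * U.sg x y = y := by
      intro x y
      obtain ⟨a, rfl⟩ := cl_surj x
      obtain ⟨b, rfl⟩ := cl_surj y
      exact cl_eq (Rel.pi_one a b)
    constructor
    · intro m m' h
      have h : U.sg (m 0) (m 1) = U.sg (m' 0) (m' 1) := h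
      funext i
      fin_cases i
      · show m 0 = m' 0
        rw [← h0 (m 0) (m 1), h, h0]
      · show m 1 = m' 1
        rw [← h1 (m 0) (m 1), h, h1]
    · intro x
      obtain ⟨a, rfl⟩ := cl_surj x
      exact ⟨![cl (Tm.pi 0) * cl a, cl (Tm.pi 1) * cl a], cl_eq (Rel.eta a)⟩
  spec m i := by
    obtain ⟨a, ha⟩ := cl_surj (m 0)
    obtain ⟨b, hb⟩ := cl_surj (m 1)
    fin_cases i
    · show cl (Tm.pi 0) * U.sg (m 0) (m 1) = m 0
      rw [← ha, ← hb]
      exact cl_eq (Rel.pi_zero a b)
    · show cl (Tm.pi 1) * U.sg (m 0) (m 1) = m 1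
      rw [← ha, ← hb]
      exact cl_eq (Rel.pi_one a b)

/-- the value of a term in a CP monoid -/
def val {N : Type} [Monoid N] (T : CP N 2) : Tm → N
  | Tm.one => 1
  | Tm.pi i => T.pt i
  | Tm.mul a b => val T a * val T b
  | Tm.sg a b => T.map ![val T a, val T b]

theorem val_rel {N : Type} [Monoid N] (T : CP N 2) {a b : Tm} (h : Rel a b) :
    val T a = val T b := by
  induction h with
  | refl a => rfl
  | symm _ ih => exact ih.symm
  | trans _ _ ih1 ih2 => exact ih1.trans ih2
  | mul _ _ ih1 ih2 => rw [val, val, ih1, ih2]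
  | sg _ _ ih1 ih2 => rw [val, val, ih1, ih2]
  | assoc a b c => simp only [val, mul_assoc]
  | one_mul a => simp only [val, one_mul]
  | mul_one a => simp only [val, mul_one]
  | pi_zero a b => rw [val, val, val, T.spec]; rfl
  | pi_one a b => rw [val, val, val, T.spec]; rfl
  | eta a =>
    rw [val, val, val, val, val]
    refine T.ext_of fun i => ?_
    rw [T.spec]
    fin_cases i <;> rfl

theorem isInitial_univCP : IsInitialCP univCP := by
  intro N _ T
  let f : U →* N :=
    { toFun := fun x => Quotient.liftOn (s := stm) x (val T) fun _ _ h => val_rel T h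
      map_one' := rfl
      map_mul' := by
        intro x y
        obtain ⟨a, rfl⟩ := cl_surj x
        obtain ⟨b, rfl⟩ := cl_surj y
        rfl }
  refine ⟨f, ⟨fun i => rfl, fun m => ?_⟩, fun g hg => ?_⟩
  · obtain ⟨a, ha⟩ := cl_surj (m 0)
    obtain ⟨b, hb⟩ := cl_surj (m 1)
    show f (U.sg (m 0) (m 1)) = _
    rw [← ha, ← hb]
    show T.map ![val T a, val T b] = _
    congr 1
    funext i
    fin_cases i
    · show f (cl a) = f (m 0)
      rw [ha]
    · show f (cl b) = f (m 1)
      rw [hb]
  · ext x
    obtain ⟨a, rfl⟩ := cl_surj x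
    show g (cl a) = val T a
    induction a with
    | one => exact map_one g
    | pi i => exact hg.pt i
    | mul a b iha ihb =>
      rw [val, ← iha, ← ihb, ← map_mul]
      rfl
    | sg a b iha ihb =>
      have := hg.map ![cl a, cl b]
      rw [val, ← iha, ← ihb]
      refine Eq.trans ?_ (this.trans ?_)
      · rfl
      · congr 1
        funext i
        fin_cases i <;> rfl

/-- **Q1 of MP_6189ff_al, full positive answer.** The universal CP monoid exists, and the group of
units of every initial CP monoid is generated by the union of the images `ψ(S_d)` over all `d ≥ 2`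
and all `d`-CP structures in `𝕊(U)`. -/
theorem result :
    (∃ (U : Type) (_ : Monoid U) (S : CP U 2), IsInitialCP S) ∧
    ∀ (U : Type) [Monoid U] (S : CP U 2), IsInitialCP S →
      Subgroup.closure (symUnits S) = ⊤ := by
  refine ⟨⟨U, inferInstance, univCP, isInitial_univCP⟩, fun U _ S hS => ?_⟩
  rw [eq_top_iff]
  intro u _
  obtain ⟨T, hT⟩ := exists_ev hS (u : U)
  exact mem_closure hS (size T) T u le_rfl hT.symm

end Pool.Agent.Results.MP_6189ff_al.GeneratedBySymmetricGroups
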